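import Pool.Agent.H25.EE.TargetsB

/-! Row FTF of the board `ee_modules`: the family `FT`. -/

set_option autoImplicit false

namespace Pool.Agent.H70.EE5.FTF

open Pool.Agent.H25.EE Polynomial Finset

theorem pf_FTF (hRANK : T_RANK) (hMIN : T_MIN) (hDEGH : T_DEGH) (hUPP : T_UPP) (hEVD : T_EVD) :
    T_FTF := by
  intro π ε hε
  obtain ⟨J1, h1⟩ := hRANK π
  obtain ⟨J2, h2⟩ := hDEGH π
  obtain ⟨J3, h3⟩ := hUPP π ε hε
  refine ⟨max J1 (max J2 J3), fun J hJ α hα => ?_⟩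
  have hJ1 : J1 ≤ J := le_trans (le_max_left _ _) hJ
  have hJ2 : J2 ≤ J := le_trans (le_trans (le_max_left _ _) (le_max_right _ _)) hJ
  have hJ3 : J3 ≤ J := le_trans (le_trans (le_max_right _ _) (le_max_right _ _)) hJ
  classical
  obtain ⟨g, hg, hdet⟩ := hMIN {a // a ∈ Ix s0 J} {b // b ∈ Ix s1 J}
    (fun a b => ev (mm π J a.1 b.1) α) (by
      intro c hc
      funext a
      have h := h1 J hJ1 α hα (fun a => if h : a ∈ Ix s0 J then c ⟨a, h⟩ else 0) (by
        intro b hb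
        rw [← Finset.sum_coe_sort, ← hc ⟨b, hb⟩]
        refine Finset.sum_congr rfl fun a _ => ?_
        rw [dif_pos a.2]) a.1 a.2
      simpa [dif_pos a.2] using h)
  refine ⟨DD π J g, (h2 J hJ2 g hg).1, (h2 J hJ2 g hg).2, ?_, ?_⟩
  · rw [hEVD]
    exact hdet
  · intro v hv x hx
    exact h3 J hJ3 g v hv x hx

end Pool.Agent.H70.EE5.FTF
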